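import Pool.Agent.helper62.RP.Spec

/-!
# Row rp:KLM
-/

set_option autoImplicit false

namespace Pool.Agent.RP

open FreeGroup

/-- Multiplication on the right: the first letter survives, or the whole word is cancelled. -/
theorem KLM_can (L : List Ltr) : ∀ M : List Ltr, IsReduced L → IsReduced M → L ≠ [] →
    (reduce (L ++ M)).head? = L.head? ∨ ∃ r, M = invRev L ++ r := by
  induction L using List.reverseRecOn with
  | nil => intro M _ _ h; exact absurd rfl h
  | append_singleton L l ih =>
    intro M hL hM _
    rcases M with _ | ⟨m, M⟩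
    · left
      rw [List.append_nil, hL.reduce_eq]
    · by_cases hm : m = (l.1, !l.2)
      · have hs : reduce (L ++ [l] ++ m :: M) = reduce (L ++ M) := by
          have h1 : L ++ [l] ++ m :: M = L ++ (l.1, l.2) :: (l.1, !l.2) :: M := by
            rw [hm]; simp
          rw [h1]
          exact reduce.Step.eq Red.Step.not
        have hM' : IsReduced M := List.IsChain.right_of_append (l₁ := [m]) hM
        have hL' : IsReduced L := List.IsChain.left_of_append hL
        rcases L with _ | ⟨x, L⟩
        · right
          exact ⟨M, by rw [hm]; simp [invRev]⟩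
        · rcases ih M hL' hM' (by simp) with h | ⟨r, h⟩
          · left
            rw [hs, h]
            simp
          · right
            refine ⟨r, ?_⟩
            rw [hm, h]
            simp [invRev]
      · left
        have hr : IsReduced (L ++ [l] ++ m :: M) := by
          rw [FreeGroup.IsReduced, List.isChain_append]
          refine ⟨hL, hM, ?_⟩
          intro a ha b hb hab
          simp only [List.getLast?_append, List.getLast?_singleton, Option.some_or,
            Option.mem_def, Option.some.injEq] at ha
          simp only [List.head?_cons, Option.mem_def, Option.some.injEq] at hb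
          subst ha hb
          by_contra hne
          apply hm
          refine Prod.ext hab.symm ?_
          show m.2 = !l.2
          cases h1 : m.2 <;> cases h2 : l.2 <;> simp_all
        rw [hr.reduce_eq]
        rcases L with _ | ⟨x, L⟩ <;> simp

theorem KLM_mul {x : F2} (y : F2) (hx : x ≠ 1) :
    (x * y).toWord.head? = x.toWord.head? ∨ ∃ r, y.toWord = invRev x.toWord ++ r := by
  rw [toWord_mul]
  exact KLM_can _ _ isReduced_toWord isReduced_toWord fun h => hx (toWord_eq_nil_iff.1 h)

/-- The periodic words. -/
def KLM_A (u v : Ltr) : ℕ → List Ltr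
  | 0 => []
  | h + 1 => u :: v :: linv u :: linv v :: KLM_A u v h

theorem KLM_len (u v : Ltr) (h : ℕ) : (KLM_A u v h).length = 4 * h := by
  induction h with
  | zero => rfl
  | succ h ih => simp only [KLM_A, List.length_cons, ih]; ring

theorem KLM_mk (u v : Ltr) (h : ℕ) :
    (mk (KLM_A u v h) : F2) = mk [u, v, linv u, linv v] ^ h := by
  induction h with
  | zero => rfl
  | succ h ih =>
    rw [pow_succ', ← ih, mul_mk]
    rfl

theorem KLM_red {u v : Ltr} (huv : u.1 ≠ v.1) (h : ℕ) : IsReduced (KLM_A u v h) := by
  induction h with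
  | zero => exact IsReduced.nil
  | succ h ih =>
    have h4 : IsReduced (linv v :: KLM_A u v h) := by
      rcases h with _ | h
      · exact IsReduced.singleton
      · rw [KLM_A, isReduced_cons_cons]
        exact ⟨fun e => absurd e.symm huv, ih⟩
    rw [KLM_A, isReduced_cons_cons, isReduced_cons_cons, isReduced_cons_cons]
    exact ⟨fun e => absurd e huv, fun e => absurd e.symm huv, fun e => absurd e huv, h4⟩

theorem KLM_suf {u v : Ltr} (huv : u.1 ≠ v.1) (h : ℕ) : ∀ R V : List Ltr,
    KLM_A u v h = R ++ V → V.head? = some u → ∃ j, V = KLM_A u v j := by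
  have e1 : linv u ≠ u := by
    intro e
    have := congrArg Prod.snd e
    simp only [linv] at this
    cases h2 : u.2 <;> simp_all
  have e2 : linv v ≠ u := fun e => huv (congrArg Prod.fst e).symm
  have e3 : v ≠ u := fun e => huv (congrArg Prod.fst e).symm
  induction h with
  | zero =>
    intro R V h1 h2
    have h3 : V = [] := by
      have := congrArg List.length h1
      simp only [KLM_A, List.length_nil, List.length_append] at this
      exact List.eq_nil_of_length_eq_zero (by omega)
    rw [h3] at h2
    simp at h2
  | succ h ih =>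
    intro R V h1 h2
    rw [KLM_A] at h1
    rcases R with _ | ⟨r1, R⟩
    · exact ⟨h + 1, by rw [KLM_A, h1]; rfl⟩
    simp only [List.cons_append, List.cons.injEq] at h1
    obtain ⟨-, h1⟩ := h1
    rcases R with _ | ⟨r2, R⟩
    · rw [List.nil_append] at h1
      rw [← h1] at h2
      simp only [List.head?_cons, Option.some.injEq] at h2
      exact absurd h2 e3
    simp only [List.cons_append, List.cons.injEq] at h1
    obtain ⟨-, h1⟩ := h1
    rcases R with _ | ⟨r3, R⟩
    · rw [List.nil_append] at h1
      rw [← h1] at h2
      simp only [List.head?_cons, Option.some.injEq] at h2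
      exact absurd h2 e1
    simp only [List.cons_append, List.cons.injEq] at h1
    obtain ⟨-, h1⟩ := h1
    rcases R with _ | ⟨r4, R⟩
    · rw [List.nil_append] at h1
      rw [← h1] at h2
      simp only [List.head?_cons, Option.some.injEq] at h2
      exact absurd h2 e2
    simp only [List.cons_append, List.cons.injEq] at h1
    exact ih R V h1.2 h2

/-- The first letter. -/
theorem KLM_first {u v : Ltr} (huv : u.1 ≠ v.1) {y : F2} {h : ℕ}
    (hy : y ∉ Subgroup.zpowers (mk [u, v, linv u, linv v] : F2)) (hn : y.norm < 4 * h) :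
    ((mk [u, v, linv u, linv v] : F2) ^ h * y *
      ((mk [u, v, linv u, linv v] : F2) ^ h)⁻¹).toWord.head? = some u := by
  set w : F2 := mk [u, v, linv u, linv v] with hw
  have hA : (w ^ h).toWord = KLM_A u v h := by
    rw [hw, ← KLM_mk, toWord_mk, (KLM_red huv h).reduce_eq]
  have hh : h ≠ 0 := by
    rintro rfl
    simp at hn
  have hhead : (KLM_A u v h).head? = some u := by
    rcases h with _ | h
    · exact absurd rfl hh
    · rfl
  have hne : w ^ h ≠ 1 := by
    intro e
    rw [e, toWord_one] at hA
    rw [← hA] at hhead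
    simp at hhead
  have h1 : (w ^ h * y).toWord.head? = some u := by
    rcases KLM_mul y hne with h2 | ⟨r, h2⟩
    · rw [h2, hA, hhead]
    · exfalso
      have h3 : y.norm = 4 * h + r.length := by
        rw [FreeGroup.norm, h2, List.length_append, invRev_length, hA, KLM_len]
      omega
  have hne2 : w ^ h * y ≠ 1 := by
    intro e
    rw [e, toWord_one] at h1
    simp at h1
  rcases KLM_mul (w ^ h)⁻¹ hne2 with h2 | ⟨r, h2⟩
  · rw [h2, h1]
  · exfalso
    rw [toWord_inv, hA] at h2
    have h3 := congrArg invRev h2
    rw [invRev_invRev, invRev_append, invRev_invRev] at h3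
    obtain ⟨j, hj⟩ := KLM_suf huv h _ _ h3 h1
    have h4 : w ^ h * y = w ^ j := by
      rw [hw, ← KLM_mk u v j, ← hj, mk_toWord]
    apply hy
    have h5 : y = (w ^ h)⁻¹ * w ^ j := by rw [← h4]; group
    rw [h5]
    exact Subgroup.mul_mem _ (Subgroup.inv_mem _ (Subgroup.pow_mem _ (Subgroup.mem_zpowers w) h))
      (Subgroup.pow_mem _ (Subgroup.mem_zpowers w) j)

theorem KLM_last {g : F2} {u : Ltr} (h : g⁻¹.toWord.head? = some u) :
    g.toWord.getLast? = some (linv u) := by
  rw [toWord_inv, invRev, List.head?_reverse, List.getLast?_map] at h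
  rcases h2 : g.toWord.getLast? with _ | a
  · rw [h2] at h; simp at h
  · rw [h2] at h
    simp only [Option.map_some, Option.some.injEq] at h
    rw [← h]
    simp [linv]

theorem KLM_both {u v : Ltr} (huv : u.1 ≠ v.1) {y : F2} {h : ℕ}
    (hy : y ∉ Subgroup.zpowers (mk [u, v, linv u, linv v] : F2)) (hn : y.norm < 4 * h) :
    ((mk [u, v, linv u, linv v] : F2) ^ h * y *
      ((mk [u, v, linv u, linv v] : F2) ^ h)⁻¹).toWord.head? = some u ∧
    ((mk [u, v, linv u, linv v] : F2) ^ h * y *
      ((mk [u, v, linv u, linv v] : F2) ^ h)⁻¹).toWord.getLast? = some (linv u) := by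
  refine ⟨KLM_first huv hy hn, KLM_last ?_⟩
  have e : ((mk [u, v, linv u, linv v] : F2) ^ h * y *
      ((mk [u, v, linv u, linv v] : F2) ^ h)⁻¹)⁻¹ =
      (mk [u, v, linv u, linv v] : F2) ^ h * y⁻¹ *
      ((mk [u, v, linv u, linv v] : F2) ^ h)⁻¹ := by group
  rw [e]
  refine KLM_first huv (fun h1 => hy ?_) ?_
  · have := Subgroup.inv_mem _ h1
    rwa [inv_inv] at this
  · rwa [norm_inv_eq]

theorem KLM : KLM_stmt := by
  intro y h hy hn
  have e0 : w0 = (mk [((0 : Fin 2), true), (1, true), linv (0, true), linv (1, true)] : F2) := rfl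
  have e1 : w0⁻¹ = (mk [((1 : Fin 2), true), (0, true), linv (1, true), linv (0, true)] : F2) :=
    rfl
  refine ⟨?_, ?_⟩
  · have h1 := KLM_both (u := (0, true)) (v := (1, true)) (by decide) (y := y) (h := h)
      (by rw [← e0]; exact hy) hn
    rw [← e0] at h1
    exact h1
  · have hy' : y ∉ Subgroup.zpowers (w0⁻¹) := by
      rw [Subgroup.zpowers_inv]; exact hy
    have h1 := KLM_both (u := (1, true)) (v := (0, true)) (by decide) (y := y) (h := h)
      (by rw [← e1]; exact hy') hn
    rw [← e1, inv_pow, inv_inv] at h1
    exact h1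

end Pool.Agent.RP
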